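import Mathlib

set_option autoImplicit false

namespace Pool.Agent.Results.MP_f0d684_an.Cubic

open Polynomial

/-- the closed sector of half-angle `θ` -/
def S (θ : ℝ) : Set ℂ := {z | |z.arg| ≤ θ ∨ z = 0}

/-- all complex zeros of `f` lie in `A` -/
def ZerosIn (f : ℝ[X]) (A : Set ℂ) : Prop := ∀ z : ℂ, aeval z f = 0 → z ∈ A

/-- the diagonal operator of a sequence -/
noncomputable def T (γ : ℕ → ℝ) (f : ℝ[X]) : ℝ[X] := f.sum fun k a => monomial k (γ k * a)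

/-- zero-sector reducing diagonal operator -/
def Reducing (γ : ℕ → ℝ) : Prop :=
  ∀ θ : ℝ, 0 < θ → θ < Real.pi / 2 → ∃ φ : ℝ, 0 ≤ φ ∧ φ < θ ∧
    ∀ f : ℝ[X], f ≠ 0 → ZerosIn f (S θ) → ZerosIn (T γ f) (S φ)

lemma coeff_T (γ : ℕ → ℝ) (f : ℝ[X]) (k : ℕ) : (T γ f).coeff k = γ k * f.coeff k := by
  simp only [T, Polynomial.sum, finset_sum_coeff, coeff_monomial, Finset.sum_ite_eq',
    mem_support_iff]
  split_ifs with h
  · rfl
  · simp [not_not.1 h]

theorem result : ¬ ∀ α : ℝ, 0 < α → ∀ p : ℝ, 2 < p →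
    Reducing fun k => Real.exp (-α * (k : ℝ) ^ p) := by
  intro h
  set u : ℝ := 99 / 100 with hu
  have hα : 0 < -Real.log u := neg_pos.2 (Real.log_neg (by norm_num [hu]) (by norm_num [hu]))
  have H := h _ hα 3 (by norm_num)
  set γ : ℕ → ℝ := fun k => Real.exp (- -Real.log u * (k : ℝ) ^ (3 : ℝ)) with hγ
  have e : ∀ k, γ k = u ^ (k ^ 3) := fun k => by
    simp only [hγ, neg_neg]
    rw [show (3 : ℝ) = (3 : ℕ) by norm_num, Real.rpow_natCast, ← Nat.cast_pow, mul_comm,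
      Real.exp_nat_mul, Real.exp_log (by norm_num [hu])]
  set f : ℝ[X] := (X - C 1) ^ 3 with hf
  have f0 : f ≠ 0 := pow_ne_zero _ (X_sub_C_ne_zero 1)
  have f1 : f = C 1 * X ^ 3 + C (-3) * X ^ 2 + C 3 * X + C (-1) := by
    simp only [hf, map_neg, map_one, map_ofNat]; ring
  have g1 : T γ f = C (u ^ 27) * X ^ 3 + C (-3 * u ^ 8) * X ^ 2 + C (3 * u) * X + C (-1) := by
    ext k
    rw [coeff_T, f1, e]
    simp only [coeff_add, coeff_C_mul, coeff_X_pow, coeff_X, coeff_C]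
    rcases k with _ | _ | _ | _ | k <;> simp <;> ring
  have real : ∀ z : ℂ, aeval z (T γ f) = 0 → z.im = 0 := fun z hz => by
    have : ∀ θ : ℝ, 0 < θ → θ < Real.pi / 2 → z ∈ S θ := fun θ h1 h2 => by
      obtain ⟨φ, -, hφ, hz'⟩ := H θ h1 h2
      rcases hz' f f0 (fun w hw => by
        have : w = 1 := by simpa [hf, sub_eq_zero] using hw
        left; simp [this, h1.le]) z hz with h | h
      exacts [Or.inl (h.trans hφ.le), Or.inr h]
    by_cases h0 : z = 0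
    · simp [h0]
    have : z.arg = 0 := by
      by_contra ha
      have hp : 0 < min (|z.arg| / 2) 1 := lt_min (half_pos (abs_pos.2 ha)) one_pos
      rcases this _ hp ((min_le_right _ _).trans_lt (by linarith [Real.pi_gt_three])) with h | h
      · linarith [min_le_left (|z.arg| / 2) 1, abs_pos.2 ha]
      · exact h0 h
    exact (Complex.arg_eq_zero_iff.1 this).2
  let P : Cubic ℂ := ⟨(u : ℂ) ^ 27, -3 * (u : ℂ) ^ 8, 3 * u, -1⟩
  have ha : P.a ≠ 0 := by simp [P, hu]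
  have hs : (P.toPoly.map (RingHom.id ℂ)).Splits := IsAlgClosed.splits _
  obtain ⟨x, y, z, h3⟩ := (Cubic.splits_iff_roots_eq_three ha).1 hs
  have hd := Cubic.discr_eq_prod_three_roots ha h3
  have hr : ∀ w ∈ ({x, y, z} : Multiset ℂ), w.im = 0 := fun w hw => by
    rw [← h3, Cubic.mem_roots_iff (Cubic.ne_zero_of_a_ne_zero (by simpa [Cubic.map] using ha))]
      at hw
    apply real
    rw [g1]; simpa [Cubic.map, P] using hw
  have hx := hr x (by simp)
  have hy := hr y (by simp)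
  have hz := hr z (by simp)
  obtain ⟨x, rfl⟩ : ∃ r : ℝ, x = r := ⟨x.re, by apply Complex.ext <;> simp [hx]⟩
  obtain ⟨y, rfl⟩ : ∃ r : ℝ, y = r := ⟨y.re, by apply Complex.ext <;> simp [hy]⟩
  obtain ⟨z, rfl⟩ : ∃ r : ℝ, z = r := ⟨z.re, by apply Complex.ext <;> simp [hz]⟩
  simp only [Cubic.discr, P, RingHom.id_apply] at hd
  have hd' : (-3 * u ^ 8) ^ 2 * (3 * u) ^ 2 - 4 * u ^ 27 * (3 * u) ^ 3 - 4 * (-3 * u ^ 8) ^ 3 * -1
      - 27 * (u ^ 27) ^ 2 * (-1) ^ 2 + 18 * u ^ 27 * (-3 * u ^ 8) * (3 * u) * -1 =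
      (u ^ 27 * u ^ 27 * (x - y) * (x - z) * (y - z)) ^ 2 := by exact_mod_cast hd
  have := sq_nonneg (u ^ 27 * u ^ 27 * (x - y) * (x - z) * (y - z))
  rw [← hd', hu] at this
  norm_num at this

end Pool.Agent.Results.MP_f0d684_an.Cubic
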